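import Pool.Agent.TH1.Andre.Irr

/-!
# André's supercharacter theory is the coarsest one keeping the single-box characters irreducible

For every `n` and every finite field `F`, André's pair (superclasses = two-sided orbits,
supercharacters = orbit sums) is a supercharacter theory of the group `U n F` of upper
unitriangular matrices, it contains every single-box character as an irreducible character, and
every supercharacter theory which contains all of them is finer.

Idea: a theory which contains a set of irreducible characters has superclasses on which these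
characters are constant; the values of the single-box characters at a group element determine its
two-sided orbit (after elimination the element is monomial, and the box `(i,j)` carries the label
`t` exactly when the characters of the box `(i,j)` with label `a` do not vanish and have the phase
`θ (a t)`).
-/

set_option linter.unusedSectionVars false
set_option linter.style.haveILetI false

open scoped Classical

noncomputable section

namespace Pool.Agent.Results.MP_1f99fc_al.AndreCoarsest

open Pool.Agent.TH1.Andre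

/-! ### Supercharacter theories (Diaconis-Isaacs) -/

section theories

variable (G : Type) [Group G]

/-- The set of irreducible complex characters of `G`. -/
def IrrChar : Set (G → ℂ) :=
  {chi | ∃ (V : Type) (_ : AddCommGroup V) (_ : Module ℂ V) (_ : FiniteDimensional ℂ V)
    (rho : Representation ℂ G V), rho.IsIrreducible ∧ chi = rho.character}

variable {G}

/-- The function `sigma_X = ∑_{psi ∈ X} psi(1) psi`. -/
def sigmaX (X : Set (G → ℂ)) (g : G) : ℂ := ∑ᶠ psi ∈ X, psi 1 * psi g

/-- `(XX, KK)` is a supercharacter theory of `G`: `XX` is a partition of the set of irreducible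
characters, `KK` is a partition of `G`, both have the same number of blocks, `{1}` is a block of
`KK`, and each `sigma_X`, `X ∈ XX`, is constant on every block of `KK`. -/
structure IsTheory (XX : Set (Set (G → ℂ))) (KK : Set (Set G)) : Prop where
  nonempty : ∀ X ∈ XX, X.Nonempty
  cover : ∀ chi : G → ℂ, chi ∈ IrrChar G ↔ ∃ X ∈ XX, chi ∈ X
  disjoint : ∀ X ∈ XX, ∀ Y ∈ XX, (X ∩ Y).Nonempty → X = Y
  partition : Setoid.IsPartition KK
  card : Nat.card XX = Nat.card KK
  one : {1} ∈ KK
  const : ∀ X ∈ XX, ∀ K ∈ KK, ∀ g ∈ K, ∀ h ∈ K, sigmaX X g = sigmaX X h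

/-- The inner product `(1/|G|) ∑_g f(g) chi(g⁻¹)` with a character. -/
def inner [Fintype G] (f chi : G → ℂ) : ℂ := (Nat.card G : ℂ)⁻¹ * ∑ g : G, f g * chi g⁻¹

end theories

/-! ### André's theory -/

variable (n : ℕ) (F : Type) [Field F]

/-- The superclasses `{g : g - 1 ∈ U (x - 1) U}`. -/
def andreK : Set (Set (U n F)) :=
  {K | ∃ x : U n F, K = {g | ∃ u v : U n F, mat g - 1 = mat u * (mat x - 1) * mat v}}

variable {n F}

/-- The two-sided orbit `U l U` of a functional `l` on the strictly upper triangular matrices. -/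
def dualOrbit (l : Module.Dual F (nil n F)) : Set (Module.Dual F (nil n F)) :=
  {m | ∃ u v : U n F, ∀ y : nil n F, m y = l (twU u v y)}

/-- The orbit sum `g ↦ ∑_{m ∈ U l U} th (m (g - 1))`, a positive multiple of the supercharacter. -/
def orbitSum (th : AddChar F ℂ) (l : Module.Dual F (nil n F)) (g : U n F) : ℂ :=
  ∑ᶠ m ∈ dualOrbit l, th (m (subOne g))

variable [Fintype F]

/-- The block of all irreducible constituents of the orbit sum of `l`. -/
def block (th : AddChar F ℂ) (l : Module.Dual F (nil n F)) : Set (U n F → ℂ) :=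
  {chi | chi ∈ IrrChar (U n F) ∧ inner (orbitSum th l) chi ≠ 0}

variable (n) in
/-- The partition of the set of irreducible characters in André's theory. -/
def andreX (th : AddChar F ℂ) : Set (Set (U n F → ℂ)) :=
  {X | ∃ l : Module.Dual F (nil n F), X = block th l}

/-- `chi` is the irreducible character of the single box `(i, j)` with label `a`: it is
irreducible and the orbit sum of the functional `y ↦ a * y i j` is a positive multiple of it. -/
def IsBoxChar (th : AddChar F ℂ) (i j : Fin n) (a : F) (chi : U n F → ℂ) : Prop :=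
  chi ∈ IrrChar (U n F) ∧ ∃ c : ℝ, 0 < c ∧ orbitSum th (box i j a) = (c : ℂ) • chi

/-! ### Proofs -/

lemma orbitSum_eq (th : AddChar F ℂ) (l : Module.Dual F (nil n F)) :
    orbitSum th l = (AU n F).osum th l := by
  funext g
  unfold orbitSum AlgGp.osum
  have h : dualOrbit l = (((AU n F).orb l : Finset (Module.Dual F (nil n F))) : Set _) := by
    ext m
    rw [Finset.mem_coe, (AU n F).mem_orb]
    constructor
    · rintro ⟨u, v, h⟩
      exact ⟨u, v, LinearMap.ext h⟩
    · rintro ⟨u, v, h⟩
      exact ⟨u, v, fun y => by rw [h]; rfl⟩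
  rw [h, finsum_mem_coe_finset]
  rfl

lemma block_eq (th : AddChar F ℂ) (l : Module.Dual F (nil n F)) :
    block th l = (AU n F).X th l := by
  unfold block AlgGp.X
  rw [orbitSum_eq]
  rfl

lemma card_andreX {th : AddChar F ℂ} (hth : th ≠ 1) : Nat.card (andreX n th) =
    Nat.card (Quotient (@MulAction.orbitRel (U n F × U n F) (Module.Dual F (nil n F)) _
      (AU n F).actD)) := by
  have h1 : andreX n th = Set.range (fun l : Module.Dual F (nil n F) => block th l) := by
    ext X
    constructor
    · rintro ⟨l, rfl⟩; exact ⟨l, rfl⟩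
    · rintro ⟨l, rfl⟩; exact ⟨l, rfl⟩
  rw [h1, ← Nat.card_congr (Setoid.quotientKerEquivRange (fun l : Module.Dual F (nil n F) =>
    block th l))]
  congr 1
  congr 1
  letI := (AU n F).actD
  ext l m
  rw [Setoid.ker_def]
  rw [block_eq, block_eq, (AU n F).X_eq_iff hth]
  show _ ↔ l ∈ MulAction.orbit (U n F × U n F) m
  constructor
  · intro h
    have h2 : l ∈ (AU n F).orb m := h ▸ (AU n F).self_mem_orb l
    obtain ⟨u, v, h3⟩ := (AU n F).mem_orb.mp h2
    refine ⟨(u⁻¹, v), ?_⟩
    show m ∘ₗ (AU n F).tw (u⁻¹)⁻¹ v = l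
    rw [inv_inv, h3]
  · rintro ⟨⟨u, v⟩, h⟩
    have h3 : m ∘ₗ (AU n F).tw u⁻¹ v = l := h
    exact (AU n F).orb_eq ((AU n F).mem_orb.mpr ⟨u⁻¹, v, h3.symm⟩)

lemma card_andreK : Nat.card (andreK n F) =
    Nat.card (Quotient (@MulAction.orbitRel (U n F × U n F) (nil n F) _ (AU n F).actJ)) := by
  set f : nil n F → Set (U n F) := fun x => {g | ∃ u v : U n F, subOne g = twU u v x} with hf
  have h1 : andreK n F = Set.range f := by
    ext X
    constructor
    · rintro ⟨x, rfl⟩
      refine ⟨subOne x, ?_⟩
      ext g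
      constructor
      · rintro ⟨u, v, h⟩
        exact ⟨u, v, congrArg (fun x : nil n F => (x : Matrix (Fin n) (Fin n) F)) h⟩
      · rintro ⟨u, v, h⟩
        exact ⟨u, v, Subtype.ext h⟩
    · rintro ⟨y, rfl⟩
      obtain ⟨x, rfl⟩ := subOne_bij.2 y
      refine ⟨x, ?_⟩
      ext g
      constructor
      · rintro ⟨u, v, h⟩
        exact ⟨u, v, congrArg (fun x : nil n F => (x : Matrix (Fin n) (Fin n) F)) h⟩
      · rintro ⟨u, v, h⟩
        exact ⟨u, v, Subtype.ext h⟩
  rw [h1, ← Nat.card_congr (Setoid.quotientKerEquivRange f)]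
  congr 1
  congr 1
  letI := (AU n F).actJ
  ext x y
  rw [Setoid.ker_def]
  show _ ↔ x ∈ MulAction.orbit (U n F × U n F) y
  have comp : ∀ (u v u' v' : U n F) (z : nil n F),
      twU u v (twU u' v' z) = twU (u * u') (v' * v) z := by
    intro u v u' v' z
    have := (AU n F).tw_mul u v u' v'
    exact LinearMap.congr_fun this z
  have one : ∀ z : nil n F, twU 1 1 z = z := by
    intro z
    have := (AU n F).tw_one
    exact LinearMap.congr_fun this z
  constructor
  · intro h
    obtain ⟨g, hg⟩ := subOne_bij.2 x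
    have h2 : g ∈ f x := ⟨1, 1, by rw [one, hg]⟩
    rw [h] at h2
    obtain ⟨u, v, h3⟩ := h2
    refine ⟨(u, v⁻¹), ?_⟩
    show twU u (v⁻¹)⁻¹ y = x
    rw [inv_inv, ← h3, hg]
  · rintro ⟨⟨u, v⟩, h⟩
    have h3 : twU u v⁻¹ y = x := h
    ext g
    constructor
    · rintro ⟨a, b, h4⟩
      refine ⟨a * u, v⁻¹ * b, ?_⟩
      rw [h4, ← h3, comp]
    · rintro ⟨a, b, h4⟩
      refine ⟨a * u⁻¹, v * b, ?_⟩
      rw [h4, ← h3, comp]
      congr 2 <;> group

lemma andreK_partition : Setoid.IsPartition (andreK n F) := by
  have refl' : ∀ x : U n F, ∃ u v : U n F, mat x - 1 = mat u * (mat x - 1) * mat v := fun x =>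
    ⟨1, 1, by rw [mat_one, one_mul, mul_one]⟩
  have symm' : ∀ x y : U n F, (∃ u v : U n F, mat x - 1 = mat u * (mat y - 1) * mat v) →
      ∃ u v : U n F, mat y - 1 = mat u * (mat x - 1) * mat v := by
    rintro x y ⟨u, v, h⟩
    refine ⟨u⁻¹, v⁻¹, ?_⟩
    rw [h]
    have : mat u⁻¹ * (mat u * (mat y - 1) * mat v) * mat v⁻¹ =
      (mat u⁻¹ * mat u) * (mat y - 1) * (mat v * mat v⁻¹) := by noncomm_ring
    rw [this, mat_inv_mul, mat_mul_inv, one_mul, mul_one]
  have trans' : ∀ x y z : U n F, (∃ u v : U n F, mat x - 1 = mat u * (mat y - 1) * mat v) →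
      (∃ u v : U n F, mat y - 1 = mat u * (mat z - 1) * mat v) →
      ∃ u v : U n F, mat x - 1 = mat u * (mat z - 1) * mat v := by
    rintro x y z ⟨u, v, h⟩ ⟨u', v', h'⟩
    refine ⟨u * u', v' * v, ?_⟩
    rw [h, h', mat_mul, mat_mul]
    noncomm_ring
  constructor
  · rintro ⟨x, hx⟩
    have : x ∈ (∅ : Set (U n F)) := by
      rw [hx]; exact refl' x
    exact this
  · intro a
    refine ⟨{g | ∃ u v : U n F, mat g - 1 = mat u * (mat a - 1) * mat v}, ⟨⟨a, rfl⟩, refl' a⟩, ?_⟩
    rintro K ⟨⟨x, rfl⟩, hx⟩
    ext g
    constructor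
    · intro hg
      exact trans' g x a hg (symm' a x hx)
    · intro hg
      exact trans' g a x hg hx

/-- André's theory is a supercharacter theory. -/
lemma andre_isTheory {th : AddChar F ℂ} (hth : th ≠ 1) : IsTheory (andreX n th) (andreK n F) where
  nonempty := by
    rintro X ⟨l, rfl⟩
    rw [block_eq]
    exact (AU n F).X_nonempty hth l
  cover := by
    intro chi
    constructor
    · intro h
      obtain ⟨l, hl⟩ := (AU n F).exists_B_ne hth (show Pool.Agent.Helper884.IC.IsIrrChar chi from h)
      refine ⟨_, ⟨l, rfl⟩, ?_⟩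
      rw [block_eq]
      exact ⟨h, hl⟩
    · rintro ⟨X, ⟨l, rfl⟩, h⟩
      exact h.1
  disjoint := by
    rintro X ⟨l, rfl⟩ Y ⟨k, rfl⟩ ⟨chi, h1, h2⟩
    rw [block_eq] at h1 h2 ⊢
    rw [block_eq]
    exact (AU n F).X_disj hth l k chi h1 h2
  partition := andreK_partition
  card := by
    rw [card_andreX hth, card_andreK]
    exact ((AU n F).card_orbits).symm
  one := by
    refine ⟨1, ?_⟩
    ext g
    constructor
    · intro h
      rw [Set.mem_singleton_iff] at h
      subst h
      exact ⟨1, 1, by simp [mat_one]⟩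
    · rintro ⟨u, v, h⟩
      rw [mat_one, sub_self, mul_zero, zero_mul] at h
      rw [Set.mem_singleton_iff]
      apply Subtype.ext
      apply Units.ext
      exact sub_eq_zero.mp h
  const := by
    rintro X ⟨l, rfl⟩ K ⟨x, rfl⟩ g hg h hh
    have key : ∀ g : U n F, (∃ u v : U n F, mat g - 1 = mat u * (mat x - 1) * mat v) →
        sigmaX (block th l) g = (AU n F).osum th l x := by
      rintro g ⟨u, v, h⟩
      unfold sigmaX
      rw [block_eq, ← (AU n F).osum_expand hth l g]
      exact (AU n F).osum_tw th l u v x g (Subtype.ext h)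
    rw [key g hg, key h hh]

lemma inner_smul (c : ℂ) (f h : U n F → ℂ) : inner (c • f) h = c * inner f h :=
  Pool.Agent.Helper884.IC.B_smul_left c f h

/-- **Main theorem.** For every `n`, every finite field `F` and every nontrivial additive character
`th` of `F`: André's pair is a supercharacter theory of the unitriangular group which contains all
single-box characters as irreducible characters, and every supercharacter theory which contains all
of them is finer than André's. -/
theorem result (n : ℕ) (F : Type) [Field F] [Fintype F] (th : AddChar F ℂ) (hth : th ≠ 1) :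
    IsTheory (andreX n th) (andreK n F) ∧
    (∀ i j : Fin n, i < j → ∀ a : F, a ≠ 0 → ∃ chi, IsBoxChar th i j a chi ∧
      {chi} ∈ andreX n th) ∧
    ∀ (XX : Set (Set (U n F → ℂ))) (KK : Set (Set (U n F))), IsTheory XX KK →
      (∀ i j : Fin n, i < j → ∀ a : F, a ≠ 0 → ∀ chi, IsBoxChar th i j a chi → {chi} ∈ XX) →
      ∀ K ∈ KK, ∃ L ∈ andreK n F, K ⊆ L := by
  have hbox : ∀ i j : Fin n, i < j → ∀ a : F, a ≠ 0 → ∃ chi, IsBoxChar th i j a chi ∧
      {chi} ∈ andreX n th := by
    intro i j hij a ha
    obtain ⟨c, hc, chi, hchi, heq⟩ := box_irr hth hij ha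
    have heq' : orbitSum th (box i j a) = (c : ℂ) • chi := by rw [orbitSum_eq, heq]
    refine ⟨chi, ⟨hchi, c, hc, heq'⟩, box i j a, ?_⟩
    ext psi
    rw [Set.mem_singleton_iff]
    have hcc : (c : ℂ) ≠ 0 := by exact_mod_cast hc.ne'
    constructor
    · rintro rfl
      refine ⟨hchi, ?_⟩
      rw [heq', inner_smul]
      have : inner psi psi = 1 := by
        have := Pool.Agent.Helper884.IC.B_irr hchi hchi
        rw [if_pos rfl] at this
        exact this
      rw [this, mul_one]
      exact hcc
    · rintro ⟨h1, h2⟩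
      rw [heq', inner_smul] at h2
      by_contra hne
      have : inner chi psi = 0 := by
        have := Pool.Agent.Helper884.IC.B_irr hchi h1
        rw [if_neg (fun h => hne h.symm)] at this
        exact this
      rw [this, mul_zero] at h2
      exact h2 rfl
  refine ⟨andre_isTheory hth, hbox, ?_⟩
  intro XX KK hT hcont K hK
  -- every block is nonempty; take a representative
  obtain ⟨g, hg⟩ : K.Nonempty := by
    by_contra hc
    rw [Set.not_nonempty_iff_eq_empty] at hc
    exact hT.partition.1 (hc ▸ hK)
  refine ⟨_, ⟨g, rfl⟩, ?_⟩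
  intro h hh
  refine separate hth g h ?_
  intro i j hij a ha
  obtain ⟨chi, hbc, _⟩ := hbox i j hij a ha
  have h1 := hT.const {chi} (hcont i j hij a ha chi hbc) K hK g hg h hh
  unfold sigmaX at h1
  rw [finsum_mem_singleton, finsum_mem_singleton] at h1
  have hne : chi 1 ≠ 0 :=
    char_one_ne (show Pool.Agent.Helper884.IC.IsIrrChar chi from hbc.1)
  have h2 : chi g = chi h := mul_left_cancel₀ hne h1
  obtain ⟨_, c, _, heq⟩ := hbc
  rw [orbitSum_eq] at heq
  rw [heq]
  simp [h2]

end Pool.Agent.Results.MP_1f99fc_al.AndreCoarsest
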